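import Mathlib

set_option autoImplicit false

namespace Pool.Agent.H.MP_0132f6_co

open Finset

def Y (y : ℕ → ℤ) (k : ℕ) : ℤ := ∑ a ∈ range k, y a

structure Inv (S : ℕ) (y : ℕ → ℤ) : Prop where
  pm : ∀ a, y a = 1 ∨ y a = -1
  anti : ∀ a b, a + b + 1 = 2 * S ^ 2 → y b = -y a
  alt : ∑ a ∈ range (2 * S ^ 2), (-1) ^ a * y a = 2 * S
  mom : ∑ a ∈ range (2 * S ^ 2), (a : ℤ) * y a = -S
  quad : ∑ j ∈ range (S ^ 2), y j * Y y (2 * j + 1) = S ^ 2

theorem Inv.tot {S : ℕ} {y : ℕ → ℤ} (h : Inv S y) : Y y (2 * S ^ 2) = 0 := by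
  have : ∑ a ∈ range (2 * S ^ 2), y (2 * S ^ 2 - 1 - a) = ∑ a ∈ range (2 * S ^ 2), -y a :=
    sum_congr rfl fun a ha => h.anti a _ (by have := mem_range.1 ha; omega)
  rw [sum_range_reflect, sum_neg_distrib] at this
  unfold Y; omega

def w (r : ℕ) : ℤ := [1, -1, 1, -1, 1, -1, 1, 1, -1, 1, -1, -1, -1, -1, 1, -1, 1, 1, -1, 1, 1, 1, 1, 1, -1, 1,
    1, 1, 1, 1, -1, 1, 1, -1, 1, -1, -1, -1, -1, 1, -1, 1, 1, -1, 1, -1, 1, -1, 1].getD r 1

def v (r : ℕ) : ℤ := [1, -1, -1, -1, -1, -1, 1, -1, -1, 1, 1, 1, 1, 1, -1, -1, -1, -1, -1, 1, 1, -1, 1, 1, 1,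
    -1, 1, 1, -1, -1, 1, 1, 1, 1, 1, 1, 1, 1, 1, -1, -1, -1, -1, 1, 1, -1, 1, 1, 1].getD r 1

def b (r : ℕ) : ℤ := [1, -1, 1, 1, 1, -1, -1, -1, 1, -1, -1, -1, -1, 1, 1, 1, -1, -1, -1, 1, 1, 1, 1, -1, 1, 1,
    1, -1, -1, -1, 1, -1].getD r 1

def vr (r : ℕ) : ℤ := v (48 - r)

def Good (u : ℕ → ℤ) (e : ℤ) : Prop := (∀ r < 49, u r = 1 ∨ u r = -1) ∧ Y u 49 = 7 ∧
  ∑ r ∈ range 49, (-1) ^ r * u r = 7 ∧ ∑ r ∈ range 49, (r : ℤ) * u r = 168 + e

def Comp (u u' : ℕ → ℤ) : Prop := ∑ r ∈ range 25, u r * Y u' (2 * r + 1) = 7 * Y u 25 ∧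
  ∑ r ∈ range 24, u (25 + r) * Y u' (2 * r + 2) = 0

theorem good : Good w 0 ∧ Good v 168 ∧ Good vr (-168) ∧ ∀ r < 49, w (48 - r) = w r := by
  unfold Good; decide +kernel

theorem comp : Comp w w ∧ Comp w v ∧ Comp w vr ∧ Comp v w ∧ Comp vr w := by
  unfold Comp; decide +kernel

theorem base : Inv 4 b := by
  refine ⟨fun a => ?_, fun a c h => ?_, by decide +kernel, by decide +kernel, by decide +kernel⟩
  · rcases lt_or_ge a 32 with h | h
    · revert a; decide +kernel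
    · exact .inl (List.getD_eq_default _ _ h)
  · obtain rfl : c = 31 - a := by omega
    replace h : a < 32 := by omega
    revert a; decide +kernel

theorem split (f : ℕ → ℤ) (n : ℕ) :
    ∑ x ∈ range (49 * n), f x = ∑ p ∈ range n, ∑ r ∈ range 49, f (49 * p + r) := by
  induction n with
  | zero => simp
  | succ n ih => rw [mul_add, mul_one, sum_range_add, ih, sum_range_succ _ n]

theorem step {S : ℕ} {y : ℕ → ℤ} (h : Inv S y) (hS : 3 ≤ S) : ∃ y', Inv (7 * S) y' := by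
  have S3 : 3 * S ≤ S ^ 2 := by nlinarith
  obtain ⟨u, hu⟩ : ∃ u : ℕ → ℕ → ℤ, u = fun p =>
    if p ∈ Ico (S ^ 2 - S) (S ^ 2 + S) then if y p = 1 then v else vr else w := ⟨_, rfl⟩
  have g : ∀ p, ∃ e, Good (u p) e ∧
      y p * e = if p ∈ Ico (S ^ 2 - S) (S ^ 2 + S) then 168 else 0 := fun p => by
    simp only [hu]; split_ifs with h1 h2
    · exact ⟨_, good.2.1, by simp [h2]⟩
    · exact ⟨_, good.2.2.1, by simp [(h.pm p).resolve_left h2]⟩
    · exact ⟨_, good.1, by simp⟩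
  have c : ∀ i < S ^ 2, ∀ j, 2 * i ≤ j → j ≤ 2 * i + 1 → Comp (u i) (u j) := fun i hi j h1 h2 => by
    simp only [hu, mem_Ico]
    split_ifs <;> first | omega | simp only [comp]
  obtain ⟨z, hz⟩ : ∃ z : ℕ → ℤ, ∀ p r, r < 49 → z (49 * p + r) = y p * u p r :=
    ⟨fun x => y (x / 49) * u (x / 49) (x % 49), fun p r hr => by
      simp only [show (49 * p + r) / 49 = p by omega, show (49 * p + r) % 49 = r by omega]⟩
  have Yz : ∀ p r, r ≤ 49 → Y z (49 * p + r) = 7 * Y y p + y p * Y (u p) r := fun p r hr => by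
    simp only [Y, sum_range_add, split, mul_sum]
    congr 1
    · refine sum_congr rfl fun q _ => ?_
      obtain ⟨e, ⟨-, g2, -⟩, -⟩ := g q
      rw [sum_congr rfl fun r hr => hz q r (mem_range.1 hr), ← mul_sum, mul_comm, ← g2, Y]
    · exact sum_congr rfl fun s hs => hz p s ((mem_range.1 hs).trans_le hr)
  have e2 : 2 * (7 * S) ^ 2 = 49 * (2 * S ^ 2) := by ring
  refine ⟨z, fun a => ?_, fun a c e => ?_, ?_, ?_, ?_⟩
  · obtain ⟨e, ⟨g1, -⟩, -⟩ := g (a / 49)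
    rw [← Nat.div_add_mod a 49, hz _ _ (Nat.mod_lt _ (by norm_num))]
    rcases h.pm (a / 49) with h1 | h1 <;> rcases g1 _ (Nat.mod_lt a (by norm_num)) with h2 | h2 <;>
      simp [h1, h2]
  · have r1 := Nat.mod_lt a (by norm_num : 0 < 49)
    have e1 : a / 49 + c / 49 + 1 = 2 * S ^ 2 := by omega
    have ya := h.anti _ _ e1
    rw [← Nat.div_add_mod a 49, ← Nat.div_add_mod c 49, hz _ _ r1, hz _ _ (Nat.mod_lt _ (by norm_num)),
      show c % 49 = 48 - a % 49 by omega, ya, neg_mul, neg_inj]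
    congr 1
    have i : c / 49 ∈ Ico (S ^ 2 - S) (S ^ 2 + S) ↔ a / 49 ∈ Ico (S ^ 2 - S) (S ^ 2 + S) := by
      simp only [mem_Ico]; omega
    simp only [hu, i, ya]
    split_ifs with h1 h2 h3 h4
    · omega
    · rfl
    · rw [vr, show 48 - (48 - a % 49) = a % 49 by omega]
    · have := h.pm (a / 49); omega
    · exact good.2.2.2 _ r1
  · rw [e2, split]
    push_cast
    rw [mul_left_comm, ← h.alt, mul_sum]
    refine sum_congr rfl fun p _ => ?_
    obtain ⟨e, ⟨-, -, g3, -⟩, -⟩ := g p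
    rw [← g3, sum_mul]
    refine sum_congr rfl fun r hr => ?_
    rw [hz _ _ (mem_range.1 hr), pow_add, pow_mul]; norm_num; ring
  · have k : ∀ p, ∑ r ∈ range 49, ((49 * p + r : ℕ) : ℤ) * z (49 * p + r) = 343 * (p * y p) + 168 * y p +
        if p ∈ Ico (S ^ 2 - S) (S ^ 2 + S) then 168 else 0 := fun p => by
      obtain ⟨e, ⟨-, g2, -, g4⟩, g5⟩ := g p
      rw [sum_congr rfl fun r hr => (by rw [hz _ _ (mem_range.1 hr)]; push_cast; ring :
        _ = 49 * p * y p * u p r + y p * (r * u p r)), sum_add_distrib, ← mul_sum, ← mul_sum, g4, ← g5,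
        ← Y, g2]
      ring
    have t := h.tot
    rw [e2, split, sum_congr rfl fun p _ => k p, sum_add_distrib, sum_add_distrib, ← mul_sum, ← mul_sum,
      h.mom, ← Y, t, sum_ite_mem, inter_eq_right.2 (fun p => by simp only [mem_Ico, mem_range]; omega),
      sum_const, Nat.card_Ico, show S ^ 2 + S - (S ^ 2 - S) = 2 * S by omega]
    simp; ring
  · rw [show (7 * S) ^ 2 = 49 * S ^ 2 by ring, split]
    push_cast
    rw [mul_pow, ← h.quad, mul_sum]
    refine sum_congr rfl fun i hi => ?_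
    obtain ⟨e, ⟨-, g2, -⟩, -⟩ := g i
    have c1 := (c i (mem_range.1 hi) _ le_rfl (by omega)).1
    have c2 := (c i (mem_range.1 hi) _ (by omega) le_rfl).2
    rw [Y, sum_range_add _ 25 24, ← Y] at g2
    rw [sum_range_add _ 25 24, sum_congr rfl fun r hr => (by
        have := mem_range.1 hr
        rw [hz _ _ (by omega), show 2 * (49 * i + r) + 1 = 49 * (2 * i) + (2 * r + 1) by ring,
          Yz _ _ (by omega)]; ring : _ = 7 * y i * Y y (2 * i) * u i r +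
          y i * y (2 * i) * (u i r * Y (u (2 * i)) (2 * r + 1))), sum_congr rfl fun r hr => (by
        have := mem_range.1 hr
        rw [hz _ _ (by omega), show 2 * (49 * i + (25 + r)) + 1 = 49 * (2 * i + 1) + (2 * r + 2) by ring,
          Yz _ _ (by omega)]; ring : z (49 * i + (25 + r)) * _ = 7 * y i * Y y (2 * i + 1) * u i (25 + r) +
          y i * y (2 * i + 1) * (u i (25 + r) * Y (u (2 * i + 1)) (2 * r + 2)))]
    simp only [sum_add_distrib, ← mul_sum, c1, c2]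
    rw [← Y, show Y y (2 * i + 1) = Y y (2 * i) + y (2 * i) from sum_range_succ _ _]
    linear_combination 7 * y i * (Y y (2 * i) + y (2 * i)) * g2

theorem all (k : ℕ) : ∃ y, Inv (7 ^ k * 4) y := by
  induction k with
  | zero => exact ⟨b, base⟩
  | succ k ih =>
    obtain ⟨y, h⟩ := ih
    rw [pow_succ', mul_assoc]
    exact step h (by have := Nat.one_le_pow k 7 (by norm_num); omega)

end Pool.Agent.H.MP_0132f6_co
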